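import Pool.Agent.H950.Nag.BeiM

/-!
# The order of vanishing at the centre as a limit of averaged sums of Frobenius traces

Let `C : y² = f(x)` be a hyperelliptic curve over `ℚ` (any genus), `d` and `i` natural numbers, and
`G` an entire continuation of `L(H^(2 i + 1)(C^d), s)` without the factors at the bad primes. Let `m` be
the order of `G` at the central point `s = i + 1`, let `MN(x)` be the sum of
`-Tr(Frob_q | H^(2 i + 1)(C^d)) log p / q^(i + 1)` over the powers `q ≤ x` of good primes `p`,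
`NA(κ, x)` the logarithmic average of `MN(n) - κ log n` over `2 ≤ n ≤ x`, and `MA(x)` the sum of
`MN(n) / n` over `2 ≤ n ≤ x`, times `2 / (log x)^2`.

1. If `κ < m`, or if `G` has a zero with `Re s > i + 1`, then `MN(x) - κ log x` is unbounded above,
   even in logarithmic average.
2. Suppose that `G` has no real zero `> i + 1`. If `κ > m`, or if `G` has a zero with
   `Re s > i + 1`, then `MN(x) - κ log x` is unbounded below, even in logarithmic average.
3. Suppose that `G` has polynomial growth in `Re s ≥ i + 1`. Then the Riemann hypothesis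
   (`G(s) ≠ 0` for `Re s > i + 1`) holds if and only if `MA` is bounded above, if and only if `MA`
   converges, and then the limit is `m`.
-/

set_option autoImplicit false

open Filter Topology

namespace Pool.Agent.Results.MP_0b9e0b_ag.AveragedFrobeniusTraces

open Pool.Agent.H438R3.BSD.Bei (IsL)
open Pool.Agent.H950.Nag.BeiN

/-- See the introduction. -/
theorem result (f : Polynomial ℤ) (d i : ℕ) (hd : 1 ≤ f.natDegree) (G : ℂ → ℂ)
    (hG : IsL f d i G) :
    ∃ m : ℕ, analyticOrderAt G (i + 1) = m ∧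
    (∀ κ : ℝ, (κ < m ∨ ∃ ρ : ℂ, (i : ℝ) + 1 < ρ.re ∧ G ρ = 0) → ∀ C : ℝ,
      (∃ᶠ x : ℕ in atTop, C < NA f d i κ x) ∧
      ∃ᶠ x : ℕ in atTop, κ * Real.log x + C < MN f d i x) ∧
    ((∀ σ : ℝ, (i : ℝ) + 1 < σ → G σ ≠ 0) →
      ∀ κ : ℝ, ((m : ℝ) < κ ∨ ∃ ρ : ℂ, (i : ℝ) + 1 < ρ.re ∧ G ρ = 0) → ∀ C : ℝ,
      (∃ᶠ x : ℕ in atTop, NA f d i κ x < C) ∧
      ∃ᶠ x : ℕ in atTop, MN f d i x < κ * Real.log x + C) ∧
    ((∃ C A : ℝ, ∀ s : ℂ, 1 ≤ s.re → ‖G (s + i)‖ ≤ C * (1 + ‖s‖) ^ A) →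
      List.TFAE [
        ∀ s : ℂ, (i : ℝ) + 1 < s.re → G s ≠ 0,
        ∃ C : ℝ, ∀ᶠ x : ℕ in atTop, MA f d i x ≤ C,
        ∃ t : ℝ, Tendsto (fun x : ℕ => MA f d i x) atTop (𝓝 t),
        Tendsto (fun x : ℕ => MA f d i x) atTop (𝓝 m)] ∧
      ∀ κ : ℝ, Tendsto (fun x : ℕ => MA f d i x) atTop (𝓝 κ) ↔
        (∀ s : ℂ, (i : ℝ) + 1 < s.re → G s ≠ 0) ∧ κ = m) :=
  final f d i hd G hG

end Pool.Agent.Results.MP_0b9e0b_ag.AveragedFrobeniusTraces
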