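import Pool.Agent.H820R3.BSDN.G9

/-!
# Central Euler products of odd weight: continuation and order of vanishing from bounds on average

Let `α_{v,j}`, `1 ≤ j ≤ d`, `v` a prime of the number field `K` with norm `q_v`, be complex numbers with
`|α_{v,j}| ≤ q_v^(i + 1/2)` and real power sums for every `v` (by Deligne the eigenvalues of Frobenius on
`H^(2i+1)(X)` for a smooth projective variety `X` over `K` and the places of good reduction, and `0`
at the other places). Let `L(s)` be the Euler product `∏_v ∏_j (1 - α_{v,j} q_v^(-s))⁻¹`, `EP(x)` the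
product of the inverse factors at the central point `s = i + 1` over `q_v ≤ x`, and `LA(x)` the
logarithmic average of `log EP(n) - κ log log n`.

1. If `LA` is bounded, then `L(s)` extends to a holomorphic function `G` without zeros in
  `Re s > i + 1`, and `log |G(i + 1 + w)| - κ log w` is bounded as `w → 0+`. (Nothing is assumed about
  the continuation of `L`.)
2. Suppose that `L` continues to a function `F` which is meromorphic at every real point of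
  `[i + 1, ∞)`, and let `m ∈ ℤ` be its order at the central point `i + 1`. If `LA` is bounded, then
  `κ = m`. If `F` has no real pole `> i + 1` and `LA` is bounded above (or only
  `EP(x) = O((log x) ^ κ)`), then `m ≤ κ` and `L` extends to a holomorphic function without zeros in
  `Re s > i + 1`. If `F` has no real zero `> i + 1` and `LA` is bounded below, then `κ ≤ m` and
  `L` extends in the same way.

The second part is the same statement for `H^(2i+1)(C^n)`, `C : y² = f(x)` over `ℚ`, where the Euler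
factors are defined by the numbers of points of `C` over finite fields.
-/

set_option autoImplicit false

open NumberField IsDedekindDomain Filter Topology

namespace Pool.Agent.Results.MP_0b9e0b_ag.CentralProductsLocal

open Pool.Agent.H820R3.BSDN
open Pool.Agent.H438R3.BSD

/-- See the introduction. -/
theorem result :
    (∀ (K : Type) [Field K] [NumberField K] (i d : ℕ)
      (α : HeightOneSpectrum (𝓞 K) → Fin d → ℂ) (_h : Mot.Sys i d α) (F : ℂ → ℂ)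
      (_hF : ∀ s : ℂ, (i : ℝ) + 3 / 2 < s.re → Mot.IsProd d α s (F s)),
      (∀ κ C : ℝ, (∀ᶠ x : ℕ in atTop, |Mot.LA i d α κ x| ≤ C) →
        ∃ G : ℂ → ℂ, DifferentiableOn ℂ G {s | (i : ℝ) + 1 < s.re} ∧
          (∀ s : ℂ, (i : ℝ) + 1 < s.re → G s ≠ 0) ∧
          (∀ s : ℂ, (i : ℝ) + 3 / 2 < s.re → Mot.IsProd d α s (G s)) ∧
          ∃ B : ℝ, ∀ᶠ w : ℝ in 𝓝[>] 0, |Real.log ‖G (i + 1 + w)‖ - κ * Real.log w| ≤ B) ∧
      ((∀ σ : ℝ, (i : ℝ) + 1 ≤ σ → MeromorphicAt F (σ : ℂ)) →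
        ∃ m : ℤ, meromorphicOrderAt F (i + 1) = m ∧
        (∀ κ C : ℝ, (∀ᶠ x : ℕ in atTop, |Mot.LA i d α κ x| ≤ C) → κ = m) ∧
        ((∀ σ : ℝ, (i : ℝ) + 1 < σ → 0 ≤ meromorphicOrderAt F σ) →
          ∀ κ : ℝ, (κ < m ∨ ¬ Mot.ZeroFree i d α) → ∀ C : ℝ,
          (∃ᶠ x : ℕ in atTop, C < Mot.LA i d α κ x) ∧
          ∃ᶠ x : ℕ in atTop, C * Real.log x ^ κ < Mot.EP i d α x) ∧
        ((∀ σ : ℝ, (i : ℝ) + 1 < σ → meromorphicOrderAt F σ ≤ 0) →
          ∀ κ : ℝ, ((m : ℝ) < κ ∨ ¬ Mot.ZeroFree i d α) → ∀ C : ℝ, 0 < C →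
          (∃ᶠ x : ℕ in atTop, Mot.LA i d α κ x < -C) ∧
          ∃ᶠ x : ℕ in atTop, Mot.EP i d α x < C * Real.log x ^ κ))) ∧
    (∀ (f : Polynomial ℤ) (_hd : 1 ≤ f.natDegree) (n i : ℕ) (F : ℂ → ℂ)
      (_hF : ∀ s : ℂ, (i : ℝ) + 3 / 2 < s.re → Hyper.IsProd f n i s (F s)),
      (∀ κ C : ℝ, (∀ᶠ x : ℕ in atTop, |Bei.LA f n i κ x| ≤ C) →
        ∃ G : ℂ → ℂ, DifferentiableOn ℂ G {s | (i : ℝ) + 1 < s.re} ∧
          (∀ s : ℂ, (i : ℝ) + 1 < s.re → G s ≠ 0) ∧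
          (∀ s : ℂ, (i : ℝ) + 3 / 2 < s.re → Hyper.IsProd f n i s (G s)) ∧
          ∃ B : ℝ, ∀ᶠ w : ℝ in 𝓝[>] 0, |Real.log ‖G (i + 1 + w)‖ - κ * Real.log w| ≤ B) ∧
      ((∀ σ : ℝ, (i : ℝ) + 1 ≤ σ → MeromorphicAt F (σ : ℂ)) →
        ∃ m : ℤ, meromorphicOrderAt F (i + 1) = m ∧
        (∀ κ C : ℝ, (∀ᶠ x : ℕ in atTop, |Bei.LA f n i κ x| ≤ C) → κ = m) ∧
        ((∀ σ : ℝ, (i : ℝ) + 1 < σ → 0 ≤ meromorphicOrderAt F σ) →
          ∀ κ : ℝ, (κ < m ∨ ¬ Hyper.ZeroFree f n i) → ∀ C : ℝ,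
          (∃ᶠ x : ℕ in atTop, C < Bei.LA f n i κ x) ∧
          ∃ᶠ x : ℕ in atTop, C * Real.log x ^ κ < Bei.EP f n i x) ∧
        ((∀ σ : ℝ, (i : ℝ) + 1 < σ → meromorphicOrderAt F σ ≤ 0) →
          ∀ κ : ℝ, ((m : ℝ) < κ ∨ ¬ Hyper.ZeroFree f n i) → ∀ C : ℝ, 0 < C →
          (∃ᶠ x : ℕ in atTop, Bei.LA f n i κ x < -C) ∧
          ∃ᶠ x : ℕ in atTop, Bei.EP f n i x < C * Real.log x ^ κ))) :=
  ⟨fun _ _ _ _ _ _ h _ hF => ⟨fun κ C hC => Mot.two h hF κ C hC, fun hm => Mot.mainL h hm hF⟩,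
    fun f hd n i _ hF => ⟨fun κ C hC => Hyper.two f hd n i hF κ C hC,
      fun hm => Hyper.mainL f hd n i hm hF⟩⟩

end Pool.Agent.Results.MP_0b9e0b_ag.CentralProductsLocal
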